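import Pool.Agent.H94.CC.Stmts

/-!
# Project CC, modules ENUM and WELL: enumeration along a choice function, well ordering
-/

set_option linter.unusedVariables false
set_option synthInstance.maxSize 100000

namespace SW.CC

theorem enum_img_congr {M : Type} [SetStr M] [ZF M] {a : M} {f g : M → M} (hf : Fn1 f)
    (hg : Fn1 g) (h : ∀ x, E x a → f x = g x) : img a f = img a g := by
  refine ext fun z => ?_
  rw [mem_img' hf, mem_img' hg]
  constructor
  · rintro ⟨x, hx, rfl⟩
    exact ⟨x, hx, h x hx⟩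
  · rintro ⟨x, hx, rfl⟩
    exact ⟨x, hx, (h x hx).symm⟩

theorem cc_enum : ENUMStmt := by
  intro M _ _ Y ch hch hY
  have hF : Fn2 (fun i h : M => ch (diff Y (img i (fun j => app h j)))) := inferInstance
  set V : M → M := fun i => mrec (fun i h : M => ch (diff Y (img i (fun j => app h j)))) i with hVdef
  have hV : Fn1 V := mrec_df
  have hVeq : ∀ i, V i = ch (diff Y (img i (fun j => V j))) := by
    intro i
    have h1 := mrec_eq hF i
    have h2 : img i (fun j => app (gr i V) j) = img i (fun j => V j) :=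
      enum_img_congr inferInstance inferInstance fun x hx => app_gr hV hx
    calc V i = ch (diff Y (img i (fun j => app (gr i V) j))) := h1
      _ = _ := by rw [h2]
  have hstep : ∀ i, ¬ Sub Y (img i (fun j => V j)) → E (V i) Y ∧ ∀ j, E j i → V i ≠ V j := by
    intro i hi
    have hex : ∃ z, E z (diff Y (img i (fun j => V j))) := by
      by_contra hno
      apply hi
      intro y hy
      by_contra hy'
      exact hno ⟨y, mem_diff.2 ⟨hy, hy'⟩⟩
    have h1 := hY (diff Y (img i (fun j => V j))) (fun z hz => (mem_diff.1 hz).1) hex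
    rw [← hVeq i, mem_diff] at h1
    refine ⟨h1.1, fun j hj h => h1.2 ?_⟩
    rw [mem_img' inferInstance]
    exact ⟨j, hj, h⟩
  -- some ordinal exhausts `Y`
  obtain ⟨a, ha, hno⟩ := hartF Y
  have hex : ∃ i, E i a ∧ Sub Y (img i (fun j => V j)) := by
    by_contra hcon
    push Not at hcon
    apply hno
    refine ⟨gr a V, fun b hb => ?_, fun b y y' _ h h' => ?_, fun b b' y hb hb' h h' => ?_⟩
    · exact ⟨V b, (hstep b (hcon b hb)).1, (opair_mem_gr hV).2 ⟨hb, rfl⟩⟩
    · rw [opair_mem_gr hV] at h h'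
      rw [h.2, h'.2]
    · rw [opair_mem_gr hV] at h h'
      have hVV : V b = V b' := h.2.symm.trans h'.2
      rcases (ha.mem hb).tri (ha.mem hb') with h1 | h1 | h1
      · exact absurd hVV.symm ((hstep b' (hcon b' hb')).2 b h1)
      · exact h1
      · exact absurd hVV ((hstep b (hcon b hb)).2 b' h1)
  obtain ⟨i, hi, hi'⟩ := hex
  obtain ⟨v, hv, hv1, hv2, -⟩ := ord_min (C := fun i : M => Sub Y (img i (fun j => V j)))
    inferInstance (ha.mem hi) hi'
  have happ : ∀ i, E i v → app (gr v V) i = V i := fun i hi => app_gr hV hi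
  refine ⟨v, gr v V, hv, ⟨fun i hi => ?_, fun i j hi hj h => ?_, fun y hy => ?_⟩, fun i hi => ?_⟩
  · rw [happ i hi]
    exact (hstep i (hv2 i hi)).1
  · rw [happ i hi, happ j hj] at h
    rcases (hv.mem hi).tri (hv.mem hj) with h1 | h1 | h1
    · exact absurd h.symm ((hstep j (hv2 j hj)).2 i h1)
    · exact h1
    · exact absurd h ((hstep i (hv2 i hi)).2 j h1)
  · have h1 := hv1 y hy
    rw [mem_img' inferInstance] at h1
    obtain ⟨i, hi, rfl⟩ := h1
    exact ⟨i, hi, (happ i hi).symm⟩
  · rw [happ i hi, hVeq i]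
    congr 2
    exact enum_img_congr inferInstance inferInstance fun x hx =>
      (happ x (hv.trans hi hx)).symm

theorem cc_well (h1 : ENUMStmt) (h2 : ACFStmt) : WELLStmt := by
  intro M _ _ X
  obtain ⟨g, hg⟩ := h2 M X
  obtain ⟨v, f, hv, hb, -⟩ := h1 M X (fun Z => app g Z) inferInstance (fun Z hZ hne => hg Z hZ hne)
  exact ⟨v, f, hv, hb⟩

end SW.CC
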