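import Pool.Agent.H94.CC.Stmts

/-!
# Project CC, module CHU: componentwise unions of increasing sequences of conditions
-/

set_option linter.unusedVariables false
set_option synthInstance.maxSize 100000

namespace SW.CC

section
variable {M : Type} [SetStr M] [ZF M]

theorem chu_fst {p0 j : M} {g : M → M} (hg : Fn1 g) {x : M} :
    E x (fst (UP p0 j g)) ↔ E x (fst p0) ∨ ∃ i, E i j ∧ E x (fst (g i)) := by
  unfold UP
  rw [fst_opair, mem_bun, mem_sUn]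
  refine or_congr_right ⟨?_, ?_⟩
  · rintro ⟨y, hy, hx⟩
    rw [mem_img' inferInstance] at hy
    obtain ⟨i, hi, rfl⟩ := hy
    exact ⟨i, hi, hx⟩
  · rintro ⟨i, hi, hx⟩
    exact ⟨fst (g i), (mem_img' inferInstance).2 ⟨i, hi, rfl⟩, hx⟩

theorem chu_snd {p0 j : M} {g : M → M} (hg : Fn1 g) {x : M} :
    E x (snd (UP p0 j g)) ↔ E x (snd p0) ∨ ∃ i, E i j ∧ E x (snd (g i)) := by
  unfold UP
  rw [snd_opair, mem_bun, mem_sUn]
  refine or_congr_right ⟨?_, ?_⟩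
  · rintro ⟨y, hy, hx⟩
    rw [mem_img' inferInstance] at hy
    obtain ⟨i, hi, rfl⟩ := hy
    exact ⟨i, hi, hx⟩
  · rintro ⟨i, hi, hx⟩
    exact ⟨snd (g i), (mem_img' inferInstance).2 ⟨i, hi, rfl⟩, hx⟩

/-- `r` witnesses `SDR` -/
def chu_W (a F a' F' r : M) : Prop :=
  (∀ e x : M, E (opair e x) r → (E e F' ∧ ¬ E e F) ∧ (E x a' ∧ ¬ E x a) ∧
    ∃ b : M, E (opair x b) e) ∧
  (∀ e : M, E e F' → ¬ E e F → ∃ x : M, E (opair e x) r) ∧
  ∀ e e' x : M, E (opair e x) r → E (opair e' x) r → e = e'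

theorem chu_W_df : Df (fun v : Fin 5 → M => chu_W (v 0) (v 1) (v 2) (v 3) (v 4)) := by
  unfold chu_W; infer_instance

theorem chu_main {p0 θ h : M} {g : M → M} (hg : Fn1 g) (hθ : Ord θ)
    (hle : ∀ i, E i θ → CLe (g i) (UP p0 i g))
    (hh : ∀ k, E k θ → chu_W (fst (UP p0 k g)) (snd (UP p0 k g)) (fst (g k)) (snd (g k)) (app h k))
    (a0 F0 : M) (C : M → Prop) (hC : Cl C)
    (h1 : ∀ k, E k θ → C k → Sub a0 (fst (UP p0 k g)) ∧ Sub F0 (snd (UP p0 k g)))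
    (h2 : ∀ k, E k θ → ¬ C k → Sub (snd (g k)) F0) (h3 : Sub (snd p0) F0) :
    SDR a0 F0 (fst (UP p0 θ g)) (snd (UP p0 θ g)) := by
  have hmem : ∀ z : M, E z (sUn (img (sep θ C) (fun k => app h k))) ↔
      ∃ k, (E k θ ∧ C k) ∧ E z (app h k) := by
    intro z
    rw [mem_sUn]
    constructor
    · rintro ⟨y, hy, hz⟩
      rw [mem_img' inferInstance] at hy
      obtain ⟨k, hk, rfl⟩ := hy
      exact ⟨k, (mem_sep' hC).1 hk, hz⟩
    · rintro ⟨k, hk, hz⟩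
      exact ⟨app h k, (mem_img' inferInstance).2 ⟨k, (mem_sep' hC).2 hk, rfl⟩, hz⟩
  refine ⟨sUn (img (sep θ C) (fun k => app h k)), fun e x he => ?_, fun e he he' => ?_,
    fun e e' x he he' => ?_⟩
  · rw [hmem] at he
    obtain ⟨k, ⟨hk, hCk⟩, he⟩ := he
    obtain ⟨⟨g1, g2⟩, ⟨g3, g4⟩, g5⟩ := (hh k hk).1 e x he
    obtain ⟨g6, g7⟩ := h1 k hk hCk
    exact ⟨⟨(chu_snd hg).2 (Or.inr ⟨k, hk, g1⟩), fun h => g2 (g7 e h)⟩,
      ⟨(chu_fst hg).2 (Or.inr ⟨k, hk, g3⟩), fun h => g4 (g6 x h)⟩, g5⟩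
  · rcases (chu_snd hg).1 he with h | ⟨i, hi, hei⟩
    · exact absurd (h3 e h) he'
    obtain ⟨k, hk, hek, hmin, hki⟩ := ord_min (C := fun k : M => E e (snd (g k)))
      inferInstance (hθ.mem hi) hei
    have hkθ : E k θ := by
      rcases hki with h | h
      · exact hθ.trans hi h
      · rw [h]; exact hi
    have hCk : C k := by
      by_contra hn
      exact he' (h2 k hkθ hn e hek)
    have hnot : ¬ E e (snd (UP p0 k g)) := by
      rw [chu_snd hg]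
      rintro (h | ⟨j, hj, h⟩)
      · exact he' (h3 e h)
      · exact hmin j hj h
    obtain ⟨x, hx⟩ := (hh k hkθ).2.1 e hek hnot
    exact ⟨x, (hmem _).2 ⟨k, ⟨hkθ, hCk⟩, hx⟩⟩
  · rw [hmem] at he he'
    obtain ⟨k, ⟨hk, -⟩, he⟩ := he
    obtain ⟨k', ⟨hk', -⟩, he'⟩ := he'
    have key : ∀ k k' e e' : M, E k θ → E k' θ → E (opair e x) (app h k) →
        E (opair e' x) (app h k') → ¬ E k k' := by
      intro k k' e e' hk hk' he he' hkk
      have f1 := ((hh k hk).1 e x he).2.1.1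
      have f2 := ((hh k' hk').1 e' x he').2.1.2
      exact f2 ((chu_fst hg).2 (Or.inr ⟨k, hkk, f1⟩))
    rcases (hθ.mem hk).tri (hθ.mem hk') with hkk | rfl | hkk
    · exact absurd hkk (key k k' e e' hk hk' he he')
    · exact (hh k hk).2.2 e e' x he he'
    · exact absurd hkk (key k' k e' e hk' hk he' he)

end

theorem cc_chu (hchs : CHSStmt) : CHUStmt := by
  intro M _ _ p0 θ g hg hθ hle
  obtain ⟨h, hh⟩ := hchs M θ (fun k r : M =>
    chu_W (fst (UP p0 k g)) (snd (UP p0 k g)) (fst (g k)) (snd (g k)) r) (by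
      unfold chu_W; infer_instance) (fun k hk => by
      obtain ⟨-, -, r, hr⟩ := hle k hk
      exact ⟨r, hr⟩)
  refine ⟨⟨?_, ?_, ?_⟩, fun i hi => ⟨?_, ?_, ?_⟩⟩
  · exact fun x hx => (chu_fst hg).2 (Or.inl hx)
  · exact fun x hx => (chu_snd hg).2 (Or.inl hx)
  · refine chu_main hg hθ hle hh (fst p0) (snd p0) (fun k : M => E k θ) inferInstance ?_ ?_
      (Sub.refl _)
    · intro k _ _
      exact ⟨fun x hx => (chu_fst hg).2 (Or.inl hx), fun x hx => (chu_snd hg).2 (Or.inl hx)⟩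
    · exact fun k hk hk' => absurd hk hk'
  · exact fun x hx => (chu_fst hg).2 (Or.inr ⟨i, hi, hx⟩)
  · exact fun x hx => (chu_snd hg).2 (Or.inr ⟨i, hi, hx⟩)
  · refine chu_main hg hθ hle hh (fst (g i)) (snd (g i)) (fun k : M => E i k) inferInstance ?_ ?_ ?_
    · intro k _ hik
      exact ⟨fun x hx => (chu_fst hg).2 (Or.inr ⟨i, hik, hx⟩),
        fun x hx => (chu_snd hg).2 (Or.inr ⟨i, hik, hx⟩)⟩
    · intro k hk hik x hx
      rcases (hθ.mem hi).tri (hθ.mem hk) with h1 | rfl | h1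
      · exact absurd h1 hik
      · exact hx
      · exact (hle i hi).2.1 x ((chu_snd hg).2 (Or.inr ⟨k, h1, hx⟩))
    · exact fun x hx => (hle i hi).2.1 x ((chu_snd hg).2 (Or.inl hx))

end SW.CC
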